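import Pool.Agent.Helper259.HtExt

/-!
# The height of a point in terms of ideals and embeddings
-/

set_option autoImplicit false
set_option linter.unusedSectionVars false

namespace Pool.Agent.U221.CD

open NumberField IsDedekindDomain FractionalIdeal

variable {K : Type} [Field K] [NumberField K]

theorem iSup_three (f : Fin 3 → ℝ) : (⨆ i, f i) = max (max (f 0) (f 1)) (f 2) := by
  apply le_antisymm
  · apply ciSup_le
    intro i
    fin_cases i
    · exact (le_max_left _ _).trans (le_max_left _ _)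
    · exact (le_max_right _ _).trans (le_max_left _ _)
    · exact le_max_right _ _
  · have hb : BddAbove (Set.range f) := Set.Finite.bddAbove (Set.finite_range f)
    exact max_le (max_le (le_ciSup hb 0) (le_ciSup hb 1)) (le_ciSup hb 2)

/-- the height in terms of ideals and embeddings -/
theorem mulHeight_ideal (t : Fin 3 → K) (h0 : t 0 ≠ 0) :
    Height.mulHeight t = (((FractionalIdeal.absNorm (spanSingleton (nonZeroDivisors (𝓞 K)) (t 0) +
      spanSingleton (nonZeroDivisors (𝓞 K)) (t 1) + spanSingleton (nonZeroDivisors (𝓞 K)) (t 2)) : ℚ) : ℝ))⁻¹ *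
        ∏ᶠ τ : K →+* ℂ, max (max ‖τ (t 0)‖ ‖τ (t 1)‖) ‖τ (t 2)‖ := by
  classical
  obtain ⟨d, hd⟩ := IsLocalization.exist_integer_multiples_of_finite (nonZeroDivisors (𝓞 K)) t
  choose x hx using hd
  have hx' : ∀ i, (x i : K) = ((d : 𝓞 K) : K) * t i := fun i => by
    have := hx i
    rw [Algebra.smul_def] at this
    exact this
  have hd0 : ((d : 𝓞 K) : K) ≠ 0 := by
    intro h
    have h1 : (d : 𝓞 K) = 0 := by
      apply RingOfIntegers.coe_injective
      exact h.trans (map_zero _).symm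
    exact nonZeroDivisors.coe_ne_zero d h1
  have hx0 : x ≠ 0 := by
    intro h
    have h1 := hx' 0
    rw [h] at h1
    have h2 : (((0 : Fin 3 → 𝓞 K) 0 : 𝓞 K) : K) = 0 := map_zero _
    rw [h2] at h1
    exact (mul_ne_zero hd0 h0) h1.symm
  have e1 : Height.mulHeight t = Height.mulHeight (fun i => (x i : K)) := by
    rw [← Height.mulHeight_smul_eq_mulHeight t hd0]
    congr 1
    funext i
    exact (hx' i).symm
  have hxK : (fun i => (x i : K)) ≠ 0 := by
    intro h
    apply hx0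
    funext i
    apply RingOfIntegers.coe_injective
    have := congrFun h i
    exact this.trans (map_zero _).symm
  rw [e1, NumberField.mulHeight_eq hxK]
  have e2 := NumberField.absNorm_mul_finprod_finitePlace_eq_one hx0
  have hdn : |Algebra.norm ℚ ((d : 𝓞 K) : K)| ≠ 0 := by
    rw [abs_ne_zero, Algebra.norm_ne_zero_iff]
    exact hd0
  have e3 : (FractionalIdeal.absNorm (((Ideal.span (Set.range x) : Ideal (𝓞 K)) : FractionalIdeal (nonZeroDivisors (𝓞 K)) K)) : ℚ) =
      |Algebra.norm ℚ ((d : 𝓞 K) : K)| * FractionalIdeal.absNorm (spanSingleton (nonZeroDivisors (𝓞 K)) (t 0) +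
      spanSingleton (nonZeroDivisors (𝓞 K)) (t 1) + spanSingleton (nonZeroDivisors (𝓞 K)) (t 2)) := by
    rw [← FractionalIdeal.absNorm_span_singleton (𝓞 K), ← map_mul, mul_add, mul_add, spanSingleton_mul_spanSingleton,
      spanSingleton_mul_spanSingleton, spanSingleton_mul_spanSingleton, ← hx' 0, ← hx' 1, ← hx' 2]
    congr 1
    have hr : Set.range x = {x 0, x 1, x 2} := by
      ext y
      simp only [Set.mem_range, Set.mem_insert_iff, Set.mem_singleton_iff]
      constructor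
      · rintro ⟨i, rfl⟩
        fin_cases i
        · exact Or.inl rfl
        · exact Or.inr (Or.inl rfl)
        · exact Or.inr (Or.inr rfl)
      · rintro (h | h | h)
        · exact ⟨0, h.symm⟩
        · exact ⟨1, h.symm⟩
        · exact ⟨2, h.symm⟩
    rw [hr, Ideal.span_insert, Ideal.span_insert, coeIdeal_sup, coeIdeal_sup, coeIdeal_span_singleton,
      coeIdeal_span_singleton, coeIdeal_span_singleton, add_assoc]
  rw [FractionalIdeal.coeIdeal_absNorm] at e3
  have e4 : ∏ v : InfinitePlace K, (⨆ i, v (x i : K)) ^ v.mult =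
      |(Algebra.norm ℚ ((d : 𝓞 K) : K) : ℝ)| * ∏ᶠ τ : K →+* ℂ, max (max ‖τ (t 0)‖ ‖τ (t 1)‖) ‖τ (t 2)‖ := by
    rw [Pool.Agent.Helper259.HtExt.prod_infinitePlace_pow_mult K (fun v => ⨆ i, v (x i : K)),
      finprod_eq_prod_of_fintype]
    have h1 : ∀ τ : K →+* ℂ, (⨆ i, (InfinitePlace.mk τ) (x i : K)) = ‖τ ((d : 𝓞 K) : K)‖ *
        max (max ‖τ (t 0)‖ ‖τ (t 1)‖) ‖τ (t 2)‖ := by
      intro τ
      rw [iSup_three]
      have h2 : ∀ i, (InfinitePlace.mk τ) (x i : K) = ‖τ ((d : 𝓞 K) : K)‖ * ‖τ (t i)‖ := fun i => by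
        rw [InfinitePlace.apply, hx' i, map_mul, norm_mul]
      rw [h2, h2, h2, mul_max_of_nonneg _ _ (norm_nonneg _), mul_max_of_nonneg _ _ (norm_nonneg _)]
    rw [Finset.prod_congr rfl fun τ _ => h1 τ, Finset.prod_mul_distrib]
    congr 1
    rw [← norm_prod]
    have h3 := Algebra.norm_eq_prod_embeddings ℚ ℂ ((d : 𝓞 K) : K)
    have h4 : ∏ τ : K →+* ℂ, τ ((d : 𝓞 K) : K) = ∏ σ : K →ₐ[ℚ] ℂ, σ ((d : 𝓞 K) : K) :=
      Fintype.prod_equiv (RingHom.equivRatAlgHom K ℂ) _ _ fun τ => rfl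
    rw [h4, ← h3]
    simp
  rw [e4]
  have e5 : ∏ᶠ v : FinitePlace K, ⨆ i, v (x i : K) = (((Ideal.absNorm (Ideal.span (Set.range x)) : ℕ) : ℝ))⁻¹ :=
    eq_inv_of_mul_eq_one_right e2
  rw [e5]
  have e6 : ((Ideal.absNorm (Ideal.span (Set.range x)) : ℕ) : ℝ) = |(Algebra.norm ℚ ((d : 𝓞 K) : K) : ℝ)| *
      (((FractionalIdeal.absNorm (spanSingleton (nonZeroDivisors (𝓞 K)) (t 0) +
      spanSingleton (nonZeroDivisors (𝓞 K)) (t 1) + spanSingleton (nonZeroDivisors (𝓞 K)) (t 2)) : ℚ) : ℝ)) := by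
    have := congrArg (fun q : ℚ => (q : ℝ)) e3
    push_cast at this
    exact this
  rw [e6, mul_inv]
  have hdn' : |(Algebra.norm ℚ ((d : 𝓞 K) : K) : ℝ)| ≠ 0 := by
    rw [abs_ne_zero]
    exact_mod_cast abs_ne_zero.1 hdn
  field_simp

end Pool.Agent.U221.CD
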