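import Pool.Agent.U221.CD.Step
import Pool.Agent.U221.TK.Rad
import Pool.Agent.Helper259.HtExt

/-!
# Primes at which one of `x`, `1 - x` is not a unit
-/

set_option autoImplicit false
set_option linter.unusedSectionVars false

namespace Pool.Agent.U221.CD

open NumberField IsDedekindDomain Finset Pool.Agent.H691R3

section

variable {K : Type} [Field K] [NumberField K]

theorem fv_eq (v : HeightOneSpectrum (𝓞 K)) (x : K) : fv v x =
    WithZeroMulInt.toNNReal (HeightOneSpectrum.absNorm_ne_zero v) (v.valuation K x) :=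
  FinitePlace.norm_embedding v x

theorem fv_lt_iff (v : HeightOneSpectrum (𝓞 K)) (x y : K) :
    fv v x < fv v y ↔ v.valuation K x < v.valuation K y := by
  rw [fv_eq, fv_eq, NNReal.coe_lt_coe]
  exact (WithZeroMulInt.toNNReal_strictMono (HeightOneSpectrum.one_lt_absNorm_nnreal v)).lt_iff_lt

theorem fv_eq_iff (v : HeightOneSpectrum (𝓞 K)) (x y : K) :
    fv v x = fv v y ↔ v.valuation K x = v.valuation K y := by
  rw [fv_eq, fv_eq, NNReal.coe_inj]
  exact (WithZeroMulInt.toNNReal_strictMono (HeightOneSpectrum.one_lt_absNorm_nnreal v)).injective.eq_iff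

theorem val_finite {x : K} (hx : x ≠ 0) : {v : HeightOneSpectrum (𝓞 K) | v.valuation K x ≠ 1}.Finite := by
  refine (fv_support_finite hx).subset fun v hv => ?_
  simp only [Set.mem_ofPred_eq] at hv ⊢
  intro h
  apply hv
  have h1 : fv v x = fv v 1 := by rw [h, map_one]
  rw [fv_eq_iff, map_one] at h1
  exact h1

open Classical in
/-- the primes at which `x` is not a unit are few -/
theorem sum_le_height {x : K} (hx : x ≠ 0) (W : Finset (HeightOneSpectrum (𝓞 K))) :
    ∑ v ∈ W, (if v.valuation K x < 1 then Real.log (Ideal.absNorm v.asIdeal : ℝ) else 0) ≤ Height.logHeight₁ x := by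
  have e1 : Height.logHeight₁ x = TK.H x⁻¹ := (Height.logHeight₁_inv x).symm
  rw [e1, TK.H_eq]
  have hnn : 0 ≤ ∑ w : InfinitePlace K, (w.mult : ℝ) * Real.posLog (w x⁻¹) :=
    sum_nonneg fun w _ => mul_nonneg (Nat.cast_nonneg _) Real.posLog_nonneg
  set W' : Finset (HeightOneSpectrum (𝓞 K)) := W ∪ (fv_support_finite (inv_ne_zero hx)).toFinset with hW'
  have e2 : ∑ᶠ v : HeightOneSpectrum (𝓞 K), Real.posLog (fv v x⁻¹) = ∑ v ∈ W', Real.posLog (fv v x⁻¹) := by
    refine finsum_eq_sum_of_support_subset _ ?_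
    intro v hv
    rw [Function.mem_support] at hv
    have : fv v x⁻¹ ≠ 1 := by
      intro h
      rw [h, Real.posLog_one] at hv
      exact hv rfl
    rw [hW', coe_union]
    exact Or.inr ((fv_support_finite (inv_ne_zero hx)).mem_toFinset.2 this)
  rw [e2]
  have e3 : ∑ v ∈ W, (if v.valuation K x < 1 then Real.log (Ideal.absNorm v.asIdeal : ℝ) else 0) ≤
      ∑ v ∈ W', Real.posLog (fv v x⁻¹) := by
    refine le_trans (sum_le_sum fun v _ => ?_)
      (sum_le_sum_of_subset_of_nonneg subset_union_left fun v _ _ => Real.posLog_nonneg)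
    split_ifs with h
    · have h' : fv v x < 1 := by
        have h2 : v.valuation K x < v.valuation K 1 := by rw [map_one]; exact h
        rw [← fv_lt_iff, map_one] at h2
        exact h2
      have := TK.log_le_of_lt v hx h'
      refine this.trans ?_
      rw [map_inv₀, ← Real.log_inv]
      exact le_max_right _ _
    · exact Real.posLog_nonneg
  linarith

open Classical in
/-- the primes at which `x` is not a unit are few -/
theorem sum_le_height' {x : K} (hx : x ≠ 0) (W : Finset (HeightOneSpectrum (𝓞 K))) :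
    ∑ v ∈ W, (if v.valuation K x ≠ 1 then Real.log (Ideal.absNorm v.asIdeal : ℝ) else 0) ≤
      2 * Height.logHeight₁ x := by
  have h1 := sum_le_height hx W
  have h2 := sum_le_height (inv_ne_zero hx) W
  rw [Height.logHeight₁_inv] at h2
  have h3 : ∑ v ∈ W, (if v.valuation K x ≠ 1 then Real.log (Ideal.absNorm v.asIdeal : ℝ) else 0) ≤
      ∑ v ∈ W, (if v.valuation K x < 1 then Real.log (Ideal.absNorm v.asIdeal : ℝ) else 0) +
      ∑ v ∈ W, (if v.valuation K x⁻¹ < 1 then Real.log (Ideal.absNorm v.asIdeal : ℝ) else 0) := by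
    rw [← sum_add_distrib]
    refine sum_le_sum fun v _ => ?_
    have hl := log_norm_nonneg v
    by_cases h : v.valuation K x ≠ 1
    · rw [if_pos h]
      rcases lt_or_gt_of_ne h with h4 | h4
      · rw [if_pos h4]
        split_ifs <;> linarith
      · have h5 : v.valuation K x⁻¹ < 1 := by
          rw [map_inv₀]
          exact inv_lt_one_of_one_lt₀ h4
        rw [if_pos h5]
        split_ifs <;> linarith
    · rw [if_neg h]
      split_ifs <;> linarith
  linarith

/-- the primes at which one of `x`, `1 - x` is not a unit -/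
def Bd (x : K) (v : HeightOneSpectrum (𝓞 K)) : Prop := ¬ (v.valuation K x = 1 ∧ v.valuation K (1 - x) = 1)

theorem bd_finite {x : K} (h0 : x ≠ 0) (h1 : x ≠ 1) : {v | Bd x v}.Finite := by
  refine ((val_finite h0).union (val_finite (sub_ne_zero.2 (Ne.symm h1)))).subset fun v hv => ?_
  simp only [Set.mem_ofPred_eq, Set.mem_union] at hv ⊢
  unfold Bd at hv
  tauto

theorem dv_of_one {p : ℕ} {a : K} {v : HeightOneSpectrum (𝓞 K)} (h : v.valuation K a = 1) : Dv p a v :=
  ⟨0, by rw [h, mul_zero, WithZero.exp_zero]⟩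

end

section

variable (K : Type) [Field K] [NumberField K]

open Classical in
/-- **the two steps**: adjoin `x ^ (1 / p)` and `(1 - x) ^ (1 / p)` -/
theorem two {p : ℕ} (hp : p.Prime) {x : K} (h0 : x ≠ 0) (h1 : x ≠ 1) (B : Finset (HeightOneSpectrum (𝓞 K)))
    (hB : ∀ v, Bd x v → v ∈ B) :
    ∃ (L : Type) (_ : Field L) (_ : NumberField L) (_ : Algebra K L) (u v : L),
      u ^ p = algebraMap K L x ∧ v ^ p = algebraMap K L (1 - x) ∧ rd L ≤ rd K + S K B + 2 * Real.log p := by
  have h1' : 1 - x ≠ 0 := sub_ne_zero.2 (Ne.symm h1)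
  set V1 := B.filter (fun v => v.valuation K x ≠ 1) with hV1
  set V2 := B.filter (fun v => v.valuation K x = 1) with hV2
  have hdisj : Disjoint V1 V2 := by
    rw [Finset.disjoint_left]
    intro v hv hv'
    rw [hV1, mem_filter] at hv
    rw [hV2, mem_filter] at hv'
    exact hv.2 hv'.2
  have hsum : S K V1 + S K V2 = S K B := by
    rw [← S_union hdisj]
    congr 1
    ext v
    rw [mem_disjUnion, hV1, hV2, mem_filter, mem_filter]
    tauto
  obtain ⟨L₁, _, _, _, u, hu, hL₁⟩ := step K hp h0 V1 (by
    intro v hv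
    rw [hV1, mem_filter]
    have h2 : v.valuation K x ≠ 1 := fun h => hv (dv_of_one h)
    exact ⟨hB v fun h => h2 h.1, h2⟩)
  have hy0 : algebraMap K L₁ (1 - x) ≠ 0 := (map_ne_zero _).2 h1'
  -- the second step
  have hfin : {w : HeightOneSpectrum (𝓞 L₁) | ¬ Dv p (algebraMap K L₁ (1 - x)) w}.Finite := by
    refine (val_finite hy0).subset fun w hw => ?_
    simp only [Set.mem_ofPred_eq] at hw ⊢
    exact fun h => hw (dv_of_one h)
  obtain ⟨L, _, _, _, v, hv, hL⟩ := step L₁ hp hy0 hfin.toFinset (by
    intro w hw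
    rw [Set.Finite.mem_toFinset]
    exact hw)
  have hbelow : S L₁ hfin.toFinset ≤ S K V2 := by
    apply S_below
    intro w hw
    rw [Set.Finite.mem_toFinset, Set.mem_ofPred_eq] at hw
    have hne : w.valuation L₁ (algebraMap K L₁ (1 - x)) ≠ 1 := fun h => hw (dv_of_one h)
    have hu0 : u ≠ 0 := by
      intro h
      rw [h, zero_pow hp.pos.ne'] at hu
      exact (map_ne_zero (algebraMap K L₁)).2 h0 hu.symm
    have hlt : w.valuation L₁ (algebraMap K L₁ (1 - x)) < 1 := by
      by_contra hcon
      rw [not_lt] at hcon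
      have hgt : 1 < w.valuation L₁ (algebraMap K L₁ (1 - x)) := lt_of_le_of_ne hcon hne.symm
      -- then `1 - x` and `x` have the same order
      have h2 : w.valuation L₁ (algebraMap K L₁ x) = w.valuation L₁ (algebraMap K L₁ (1 - x)) := by
        have e : algebraMap K L₁ x = 1 - algebraMap K L₁ (1 - x) := by
          rw [map_sub, map_one]
          ring
        rw [e]
        have h3 : w.valuation L₁ (1 : L₁) < w.valuation L₁ (algebraMap K L₁ (1 - x)) := by
          rw [map_one]
          exact hgt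
        exact Valuation.map_sub_eq_of_lt_right _ h3
      apply hw
      obtain ⟨m, hm⟩ := exists_exp w hu0
      refine ⟨m, ?_⟩
      rw [← h2, ← hu, map_pow, hm, ← WithZero.exp_nsmul, nsmul_eq_mul]
    have h4 := below_lt (K := K) w (1 - x) hlt
    have h5 : (below K w).valuation K x = 1 := by
      have e : x = 1 - (1 - x) := by ring
      rw [e]
      have h6 : (below K w).valuation K (1 - x) < (below K w).valuation K (1 : K) := by
        rw [map_one]
        exact h4
      rw [Valuation.map_sub_eq_of_lt_left _ h6, map_one]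
    rw [hV2, mem_filter]
    refine ⟨hB _ fun h => ?_, h5⟩
    exact h4.ne h.2
  letI : Algebra K L := ((algebraMap L₁ L).comp (algebraMap K L₁)).toAlgebra
  have hcomp : ∀ y : K, algebraMap K L y = algebraMap L₁ L (algebraMap K L₁ y) := fun y => rfl
  refine ⟨L, inferInstance, inferInstance, inferInstance, algebraMap L₁ L u, v, ?_, ?_, ?_⟩
  · rw [hcomp, ← hu, map_pow]
  · rw [hcomp, hv]
  · linarith

end

end Pool.Agent.U221.CD
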