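import Pool.Agent.U221.CD.Loc

/-!
# The different of `K (a ^ (1 / p)) / K`
-/

set_option autoImplicit false
set_option linter.unusedSectionVars false

namespace Pool.Agent.U221.CD

open NumberField IsDedekindDomain Polynomial

/-- the order of `a` at `v` is divisible by `p` -/
def Dv {K : Type} [Field K] [NumberField K] (p : ℕ) (a : K) (v : HeightOneSpectrum (𝓞 K)) : Prop :=
  ∃ n : ℤ, v.valuation K a = WithZero.exp ((p : ℤ) * n)

section

variable {K L : Type} [Field K] [NumberField K] [Field L] [NumberField L] [Algebra K L]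
  {p : ℕ} {d : 𝓞 K} {θ : 𝓞 L}

theorem coe_pow_eq (hθ : θ ^ p = algebraMap (𝓞 K) (𝓞 L) d) : (θ : L) ^ p = algebraMap K L (d : K) := by
  have h := congrArg (algebraMap (𝓞 L) L) hθ
  rw [map_pow] at h
  rw [← coe_alg]
  exact h

theorem minpoly_eq (hp : p.Prime) (hd : ∀ b : K, b ^ p ≠ (d : K)) (hθ : θ ^ p = algebraMap (𝓞 K) (𝓞 L) d) :
    minpoly K (θ : L) = X ^ p - C (d : K) := by
  symm
  apply minpoly.eq_of_irreducible_of_monic
  · exact X_pow_sub_C_irreducible_of_prime hp hd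
  · simp only [map_sub, map_pow, aeval_X, aeval_C]
    rw [sub_eq_zero]
    exact coe_pow_eq hθ
  · exact monic_X_pow_sub_C _ hp.pos.ne'

theorem minpoly_int (hp : p.Prime) (hd : ∀ b : K, b ^ p ≠ (d : K)) (hθ : θ ^ p = algebraMap (𝓞 K) (𝓞 L) d) :
    minpoly (𝓞 K) θ = X ^ p - C d := by
  have h1 := minpoly.isIntegrallyClosed_eq_field_fractions (R := 𝓞 K) (S := 𝓞 L) K L (s := θ)
    (Algebra.IsIntegral.isIntegral θ)
  have h2 : minpoly K (algebraMap (𝓞 L) L θ) = X ^ p - C (d : K) := minpoly_eq hp hd hθ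
  rw [h2] at h1
  apply Polynomial.map_injective (algebraMap (𝓞 K) K) RingOfIntegers.coe_injective
  rw [← h1]
  simp

theorem adjoin_top (hp : p.Prime) (h3 : Module.finrank K L = p)
    (hd : ∀ b : K, b ^ p ≠ (d : K)) (hθ : θ ^ p = algebraMap (𝓞 K) (𝓞 L) d) :
    Algebra.adjoin K {algebraMap (𝓞 L) L θ} = ⊤ := by
  have hfd : FiniteDimensional K L := Module.finite_of_finrank_pos (by rw [h3]; exact hp.pos)
  have h1 : IntermediateField.adjoin K {(θ : L)} = ⊤ := by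
    rw [Field.primitive_element_iff_minpoly_natDegree_eq, minpoly_eq hp hd hθ, h3]
    exact natDegree_X_pow_sub_C
  have hint : IsAlgebraic K (θ : L) := (Algebra.IsIntegral.isIntegral (θ : L)).isAlgebraic
  have h2 := IntermediateField.adjoin_simple_toSubalgebra_of_isAlgebraic hint
  rw [h1, IntermediateField.top_toSubalgebra] at h2
  exact h2.symm

theorem mem_diff (hp : p.Prime) (h3 : Module.finrank K L = p)
    (hd : ∀ b : K, b ^ p ≠ (d : K)) (hθ : θ ^ p = algebraMap (𝓞 K) (𝓞 L) d) :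
    (p : 𝓞 L) * θ ^ (p - 1) ∈ differentIdeal (𝓞 K) (𝓞 L) := by
  have hfd : FiniteDimensional K L := Module.finite_of_finrank_pos (by rw [h3]; exact hp.pos)
  have h := aeval_derivative_mem_differentIdeal (𝓞 K) K L θ (adjoin_top hp h3 hd hθ)
  rw [minpoly_int hp hd hθ] at h
  have h' : aeval θ (derivative (X ^ p - C d)) = (p : 𝓞 L) * θ ^ (p - 1) := by
    simp only [derivative_sub, derivative_C, sub_zero, derivative_X_pow, map_mul, aeval_C, map_pow,
      aeval_X]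
    rw [map_natCast]
  rw [← h']
  exact h

theorem pow_mem (hp : p.Prime) (h3 : Module.finrank K L = p)
    (hd : ∀ b : K, b ^ p ≠ (d : K)) (hθ : θ ^ p = algebraMap (𝓞 K) (𝓞 L) d) :
    algebraMap (𝓞 K) (𝓞 L) (d ^ (p - 1)) * (p : 𝓞 L) ^ p ∈ differentIdeal (𝓞 K) (𝓞 L) ^ p := by
  have h := Ideal.pow_mem_pow (mem_diff hp h3 hd hθ) p
  have e : ((p : 𝓞 L) * θ ^ (p - 1)) ^ p = algebraMap (𝓞 K) (𝓞 L) (d ^ (p - 1)) * (p : 𝓞 L) ^ p := by
    rw [mul_pow, map_pow, ← hθ, ← pow_mul, ← pow_mul, mul_comm (p - 1) p]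
    ring
  rw [← e]
  exact h

end

section

variable {K : Type} [Field K] [NumberField K]

theorem exists_exp (v : HeightOneSpectrum (𝓞 K)) {a : K} (ha : a ≠ 0) :
    ∃ m : ℤ, v.valuation K a = WithZero.exp m :=
  ⟨WithZero.log (v.valuation K a), (WithZero.exp_log ((Valuation.ne_zero_iff _).2 ha)).symm⟩

/-- an element with given order -/
theorem exists_val (v : HeightOneSpectrum (𝓞 K)) (m : ℤ) : ∃ c : K, c ≠ 0 ∧ v.valuation K c = WithZero.exp m := by
  obtain ⟨c, hc⟩ := HeightOneSpectrum.valuation_surjective K v (WithZero.exp m)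
  refine ⟨c, ?_, hc⟩
  rintro rfl
  rw [map_zero] at hc
  exact absurd hc.symm (by simp)

theorem not_pow {p i : ℕ} (hp : p.Prime) (hi : i.Coprime p) {a : K} (ha : a ≠ 0) (hirr : ∀ b : K, b ^ p ≠ a)
    {c : K} (hc : c ≠ 0) (b : K) : b ^ p ≠ a ^ i * c ^ p := by
  intro h
  have hb : a ^ i = (b / c) ^ p := by
    rw [div_pow, h]
    field_simp
  obtain ⟨x, y, hxy⟩ := (Int.isCoprime_iff_gcd_eq_one.2 (by exact_mod_cast hi) : IsCoprime (i : ℤ) (p : ℤ))
  apply hirr ((b / c) ^ x * a ^ y)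
  have hbc : b / c ≠ 0 := by
    intro h0
    rw [h0, zero_pow hp.pos.ne'] at hb
    exact (pow_ne_zero i ha) hb
  have e1 : a = a ^ ((i : ℤ) * x + (p : ℤ) * y) := by
    rw [show (i : ℤ) * x + (p : ℤ) * y = 1 by linarith, zpow_one]
  have e2 : a ^ ((i : ℤ) * x + (p : ℤ) * y) = ((b / c) ^ x * a ^ y) ^ p := by
    rw [zpow_add₀ ha, zpow_mul, zpow_mul, zpow_natCast, zpow_natCast, hb, mul_pow, ← zpow_natCast, ← zpow_natCast,
      ← zpow_mul, ← zpow_mul, ← zpow_natCast ((b / c) ^ x), ← zpow_natCast (a ^ y), ← zpow_mul, ← zpow_mul]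
    ring_nf
  rw [← e2, ← e1]

/-- a representative of the class of `a` which is good at `v` -/
theorem exists_good {L : Type} [Field L] [NumberField L] [Algebra K L] {p : ℕ} (hp : p.Prime) {a : K} (ha : a ≠ 0)
    (hirr : ∀ b : K, b ^ p ≠ a) {α : L} (hα : α ^ p = algebraMap K L a) (v : HeightOneSpectrum (𝓞 K)) :
    ∃ (d : 𝓞 K) (θ : 𝓞 L), d ≠ 0 ∧ θ ^ p = algebraMap (𝓞 K) (𝓞 L) d ∧ (∀ b : K, b ^ p ≠ (d : K)) ∧
      ((Dv p a v ∧ v.valuation K (d : K) = 1) ∨ (¬ Dv p a v ∧ v.valuation K (d : K) = WithZero.exp (-1 : ℤ))) := by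
  -- exponents
  obtain ⟨m, hm⟩ := exists_exp v ha
  have key : ∃ (i : ℕ) (c : K), i.Coprime p ∧ c ≠ 0 ∧ ((Dv p a v ∧ v.valuation K (a ^ i * c ^ p) = 1) ∨
      (¬ Dv p a v ∧ v.valuation K (a ^ i * c ^ p) = WithZero.exp (-1 : ℤ))) := by
    by_cases hd : (p : ℤ) ∣ m
    · obtain ⟨n, rfl⟩ := hd
      obtain ⟨c, hc, hcv⟩ := exists_val v (-n)
      refine ⟨1, c, Nat.coprime_one_left p, hc, Or.inl ⟨⟨n, hm⟩, ?_⟩⟩
      rw [pow_one, map_mul, map_pow, hcv, hm, ← WithZero.exp_nsmul, ← WithZero.exp_add]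
      simp
    · -- i m + p k = -1
      have hcop : IsCoprime m (p : ℤ) := by
        have : IsCoprime (p : ℤ) m := (Nat.prime_iff_prime_int.1 hp).coprime_iff_not_dvd.2 hd
        exact this.symm
      obtain ⟨x, y, hxy⟩ := hcop
      -- choose i natural, i ≡ -x mod p
      obtain ⟨i, hi⟩ : ∃ i : ℕ, (p : ℤ) ∣ (i : ℤ) + x := by
        refine ⟨((-x) % (p : ℤ)).toNat, ?_⟩
        have hp0 : (p : ℤ) ≠ 0 := by exact_mod_cast hp.pos.ne'
        rw [Int.toNat_of_nonneg (Int.emod_nonneg _ hp0)]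
        have := Int.emod_emod_of_dvd (-x) (dvd_refl (p : ℤ))
        have h2 : (p : ℤ) ∣ (-x) - (-x) % (p : ℤ) := Int.dvd_self_sub_emod
        have h3 : (-x) % (p : ℤ) + x = -((-x) - (-x) % (p : ℤ)) := by ring
        rw [h3]
        exact (dvd_neg).2 h2
      obtain ⟨z, hz⟩ := hi
      -- i m + 1 = (p z - x) m + 1 = p z m + p y
      have e1 : (i : ℤ) * m + 1 = (p : ℤ) * (z * m + y) := by
        have : (i : ℤ) = p * z - x := by linarith
        rw [this]
        linear_combination -hxy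
      have hicop : i.Coprime p := by
        rw [Nat.coprime_comm, hp.coprime_iff_not_dvd]
        intro hdi
        have h2 : (p : ℤ) ∣ (i : ℤ) := by exact_mod_cast hdi
        have h3 : (p : ℤ) ∣ 1 := by
          have h4 : (1 : ℤ) = p * (z * m + y) - i * m := by linarith
          rw [h4]
          exact dvd_sub (dvd_mul_right _ _) (h2.mul_right _)
        have h5 : p ∣ 1 := by exact_mod_cast h3
        exact hp.one_lt.ne' (Nat.dvd_one.1 h5)
      obtain ⟨c, hc, hcv⟩ := exists_val v (-(z * m + y))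
      refine ⟨i, c, hicop, hc, Or.inr ⟨?_, ?_⟩⟩
      · rintro ⟨n, hn⟩
        rw [hm] at hn
        exact hd ⟨n, WithZero.exp_injective hn⟩
      rw [map_mul, map_pow, map_pow, hcv, hm, ← WithZero.exp_nsmul, ← WithZero.exp_nsmul, ← WithZero.exp_add]
      congr 1
      rw [nsmul_eq_mul, nsmul_eq_mul]
      linear_combination e1
  obtain ⟨i, c, hi, hc, hval⟩ := key
  have hle : v.valuation K (a ^ i * c ^ p) ≤ 1 := by
    rcases hval with ⟨-, h⟩ | ⟨-, h⟩
    · rw [h]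
    · rw [h, ← WithZero.exp_zero, WithZero.exp_le_exp]
      norm_num
  obtain ⟨s, hs, t, ht⟩ := exists_den v _ hle
  have hsK : (s : K) ≠ 0 := ne_zero_of_notMem hs
  have hsv := val_one_of_notMem (K := K) hs
  have hp1 : 1 ≤ p := hp.pos
  -- d = s ^ (p - 1) * t
  have hdK : ((s ^ (p - 1) * t : 𝓞 K) : K) = a ^ i * ((s : K) * c) ^ p := by
    change algebraMap (𝓞 K) K (s ^ (p - 1) * t) = _
    rw [map_mul, map_pow]
    change (s : K) ^ (p - 1) * (t : K) = _
    rw [ht, mul_pow]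
    obtain ⟨q, rfl⟩ : ∃ q, p = q + 1 := ⟨p - 1, by omega⟩
    rw [Nat.add_sub_cancel]
    ring
  have hθint : IsIntegral ℤ (α ^ i * algebraMap K L ((s : K) * c)) := by
    have h1 : IsIntegral ℤ ((α ^ i * algebraMap K L ((s : K) * c)) ^ p) := by
      have e : (α ^ i * algebraMap K L ((s : K) * c)) ^ p = algebraMap K L ((s ^ (p - 1) * t : 𝓞 K) : K) := by
        rw [hdK, mul_pow, ← pow_mul, mul_comm i p, pow_mul, hα, map_mul (algebraMap K L) (a ^ i),
          map_pow, map_pow]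
      rw [e, ← coe_alg]
      exact RingOfIntegers.isIntegral_coe _
    exact IsIntegral.of_pow hp.pos h1
  obtain ⟨θ, hθ⟩ := (IsIntegralClosure.isIntegral_iff (A := 𝓞 L)).mp hθint
  refine ⟨s ^ (p - 1) * t, θ, ?_, ?_, ?_, ?_⟩
  · intro h0
    have h1 : ((s ^ (p - 1) * t : 𝓞 K) : K) = 0 := by
      rw [h0]
      exact map_zero _
    rw [hdK] at h1
    exact (mul_ne_zero (pow_ne_zero _ ha) (pow_ne_zero _ (mul_ne_zero hsK hc))) h1
  · apply RingOfIntegers.coe_injective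
    rw [map_pow, hθ]
    change _ = ((algebraMap (𝓞 K) (𝓞 L) (s ^ (p - 1) * t) : 𝓞 L) : L)
    rw [coe_alg, hdK, mul_pow, ← pow_mul, mul_comm i p, pow_mul, hα, map_mul (algebraMap K L) (a ^ i), map_pow,
      map_pow]
  · intro b
    rw [hdK]
    exact not_pow hp hi ha hirr (mul_ne_zero hsK hc) b
  · have e : v.valuation K ((s ^ (p - 1) * t : 𝓞 K) : K) = v.valuation K (a ^ i * c ^ p) := by
      rw [hdK, map_mul, map_mul, map_pow, map_pow, map_pow, map_mul, hsv, one_mul]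
    rw [e]
    exact hval

end

section

variable {K L : Type} [Field K] [NumberField K] [Field L] [NumberField L] [Algebra K L]

/-- the different of `K (a ^ (1 / p)) / K` -/
theorem diff_dvd {p : ℕ} (hp : p.Prime) (h3 : Module.finrank K L = p) {a : K} (ha : a ≠ 0)
    (hirr : ∀ b : K, b ^ p ≠ a) {α : L} (hα : α ^ p = algebraMap K L a) (V : Finset (HeightOneSpectrum (𝓞 K)))
    (hV : ∀ v, ¬ Dv p a v → v ∈ V) :
    Ideal.absNorm (differentIdeal (𝓞 K) (𝓞 L)) ^ p ∣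
      ((∏ v ∈ V, Ideal.absNorm v.asIdeal) ^ (p - 1)) ^ p * (p ^ Module.finrank ℚ L) ^ p := by
  set 𝔇 := differentIdeal (𝓞 K) (𝓞 L) with h𝔇
  -- the ideal of the `t` with `t p ^ p ∈ 𝔇 ^ p`
  let I : Ideal (𝓞 K) :=
    { carrier := {t | algebraMap (𝓞 K) (𝓞 L) t * (p : 𝓞 L) ^ p ∈ 𝔇 ^ p}
      add_mem' := by
        intro x y hx hy
        show algebraMap (𝓞 K) (𝓞 L) (x + y) * (p : 𝓞 L) ^ p ∈ 𝔇 ^ p
        rw [map_add, add_mul]
        exact (𝔇 ^ p).add_mem hx hy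
      zero_mem' := by
        show algebraMap (𝓞 K) (𝓞 L) 0 * (p : 𝓞 L) ^ p ∈ 𝔇 ^ p
        rw [map_zero, zero_mul]
        exact (𝔇 ^ p).zero_mem
      smul_mem' := by
        intro c x hx
        show algebraMap (𝓞 K) (𝓞 L) (c • x) * (p : 𝓞 L) ^ p ∈ 𝔇 ^ p
        rw [smul_eq_mul, map_mul, mul_assoc]
        exact (𝔇 ^ p).mul_mem_left _ hx }
  have hJ : (∏ v ∈ V, v.asIdeal ^ (p - 1)) ≤ I := by
    apply le_of_local
    intro v
    obtain ⟨d, θ, hd0, hθ, hdirr, hval⟩ := exists_good hp ha hirr hα v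
    refine ⟨d ^ (p - 1), pow_mem hp h3 hdirr hθ, pow_ne_zero _ hd0, fun t ht => ?_⟩
    have e : v.valuation K ((d ^ (p - 1) : 𝓞 K) : K) = (v.valuation K (d : K)) ^ (p - 1) := by
      change v.valuation K (algebraMap (𝓞 K) K (d ^ (p - 1))) = _
      rw [map_pow, map_pow]
    rw [e]
    rcases hval with ⟨-, h⟩ | ⟨hv, h⟩
    · rw [h, one_pow]
      exact HeightOneSpectrum.valuation_le_one v t
    · rw [h, ← WithZero.exp_nsmul]
      refine (val_le_of_mem_prod V (p - 1) ht (hV v hv)).trans (le_of_eq ?_)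
      congr 1
      rw [nsmul_eq_mul]
      ring
  have hmap : (∏ v ∈ V, v.asIdeal ^ (p - 1)).map (algebraMap (𝓞 K) (𝓞 L)) * Ideal.span {(p : 𝓞 L) ^ p} ≤ 𝔇 ^ p := by
    rw [Ideal.mul_le]
    intro r hr s hs
    obtain ⟨s', rfl⟩ := Ideal.mem_span_singleton'.1 hs
    have h1 : ∀ r ∈ (∏ v ∈ V, v.asIdeal ^ (p - 1)).map (algebraMap (𝓞 K) (𝓞 L)), r * (p : 𝓞 L) ^ p ∈ 𝔇 ^ p := by
      intro r hr
      refine Submodule.span_induction (p := fun r _ => r * (p : 𝓞 L) ^ p ∈ 𝔇 ^ p) ?_ ?_ ?_ ?_ hr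
      · rintro _ ⟨t, ht, rfl⟩
        exact hJ ht
      · rw [zero_mul]
        exact (𝔇 ^ p).zero_mem
      · intro x y _ _ hx hy
        rw [add_mul]
        exact (𝔇 ^ p).add_mem hx hy
      · intro c x _ hx
        rw [smul_eq_mul, mul_assoc]
        exact (𝔇 ^ p).mul_mem_left _ hx
    have h2 : r * (s' * (p : 𝓞 L) ^ p) = s' * (r * (p : 𝓞 L) ^ p) := by ring
    rw [h2]
    exact (𝔇 ^ p).mul_mem_left _ (h1 r hr)
  have h4 := Ideal.absNorm_dvd_absNorm_of_le hmap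
  rw [map_pow, map_mul, Ideal.absNorm_algebraMap, ← IsFractionRing.finrank_eq (𝓞 K) K (𝓞 L) L, h3, map_prod] at h4
  have e1 : (Ideal.span {(p : 𝓞 L) ^ p}) = (Ideal.span {(p : 𝓞 L)}) ^ p := by
    rw [Ideal.span_singleton_pow]
  have e2 : Ideal.absNorm (Ideal.span {(p : 𝓞 L)}) = p ^ Module.finrank ℚ L := by
    rw [Ideal.absNorm_span_natCast, RingOfIntegers.rank]
  rw [e1, map_pow, e2] at h4
  have e3 : ∏ v ∈ V, Ideal.absNorm (v.asIdeal ^ (p - 1)) = (∏ v ∈ V, Ideal.absNorm v.asIdeal) ^ (p - 1) := by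
    rw [← Finset.prod_pow]
    exact Finset.prod_congr rfl fun v _ => map_pow _ _ _
  rw [e3] at h4
  exact h4

end

end Pool.Agent.U221.CD
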