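import Mathlib

/-!
# Ideals of a number field, locally
-/

set_option autoImplicit false
set_option linter.unusedSectionVars false

namespace Pool.Agent.U221.CD

open NumberField IsDedekindDomain

variable {K : Type} [Field K] [NumberField K]

/-- denominators prime to a prime -/
theorem exists_den (v : HeightOneSpectrum (𝓞 K)) (y : K) (h : v.valuation K y ≤ 1) :
    ∃ s : 𝓞 K, s ∉ v.asIdeal ∧ ∃ t : 𝓞 K, (t : K) = (s : K) * y := by
  obtain ⟨n, d, hd⟩ := v.exists_primeCompl_mul_eq_of_integer y h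
  refine ⟨d.1, d.2, n, ?_⟩
  rw [mul_comm]
  exact hd.symm

theorem ne_zero_of_notMem {v : HeightOneSpectrum (𝓞 K)} {s : 𝓞 K} (h : s ∉ v.asIdeal) : (s : K) ≠ 0 := by
  intro h0
  have : s = 0 := by exact_mod_cast h0
  rw [this] at h
  exact h (zero_mem _)

theorem val_one_of_notMem {v : HeightOneSpectrum (𝓞 K)} {s : 𝓞 K} (h : s ∉ v.asIdeal) :
    v.valuation K (s : K) = 1 := by
  exact (HeightOneSpectrum.valuation_eq_one_iff_notMem (K := K) v).2 h

/-- an ideal which locally contains `J` contains `J` -/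
theorem le_of_local (I J : Ideal (𝓞 K)) (h : ∀ v : HeightOneSpectrum (𝓞 K), ∃ c ∈ I, c ≠ 0 ∧
    ∀ t ∈ J, v.valuation K (t : K) ≤ v.valuation K (c : K)) : J ≤ I := by
  intro t ht
  by_contra hcon
  let D : Ideal (𝓞 K) :=
    { carrier := {s | s * t ∈ I}
      add_mem' := by
        intro a b ha hb
        show (a + b) * t ∈ I
        rw [add_mul]
        exact I.add_mem ha hb
      zero_mem' := by
        show (0 : 𝓞 K) * t ∈ I
        rw [zero_mul]
        exact I.zero_mem
      smul_mem' := by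
        intro c a ha
        show (c • a) * t ∈ I
        rw [smul_eq_mul, mul_assoc]
        exact I.mul_mem_left c ha }
  have hD : D ≠ ⊤ := by
    intro h1
    apply hcon
    have h2 : (1 : 𝓞 K) ∈ D := by rw [h1]; trivial
    have h3 : (1 : 𝓞 K) * t ∈ I := h2
    rwa [one_mul] at h3
  obtain ⟨M, hM, hDM⟩ := Ideal.exists_le_maximal D hD
  have hne : M ≠ ⊥ := by
    intro h0
    have hnt : ∃ v : HeightOneSpectrum (𝓞 K), True := by
      by_contra hno
      apply RingOfIntegers.not_isField K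
      rw [Ring.isField_iff_maximal_bot]
      rw [← h0]
      exact hM
    obtain ⟨v, -⟩ := hnt
    obtain ⟨c, hc, hc0, -⟩ := h v
    have h2 : c ∈ D := by
      show c * t ∈ I
      exact I.mul_mem_right t hc
    have h3 := hDM h2
    rw [h0] at h3
    exact hc0 (Ideal.mem_bot.1 h3)
  let v : HeightOneSpectrum (𝓞 K) := ⟨M, hM.isPrime, hne⟩
  obtain ⟨c, hc, hc0, hv⟩ := h v
  have hc0' : (c : K) ≠ 0 := by
    intro h0
    exact hc0 (by exact_mod_cast h0)
  have hv1 := hv t ht
  have h1 : v.valuation K ((t : K) / (c : K)) ≤ 1 := by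
    rw [map_div₀]
    refine div_le_one_of_le₀ hv1 zero_le
  obtain ⟨s, hs, r, hr⟩ := exists_den v _ h1
  have h2 : s * t = r * c := by
    apply RingOfIntegers.coe_injective
    rw [map_mul, map_mul]
    change (s : K) * (t : K) = (r : K) * (c : K)
    rw [hr]
    field_simp
  have h4 : s ∈ D := by
    show s * t ∈ I
    rw [h2]
    exact I.mul_mem_left r hc
  exact hs (hDM h4)

/-- the order at `v` of the members of a product of powers of primes -/
theorem val_le_of_mem_prod (V : Finset (HeightOneSpectrum (𝓞 K))) (m : ℕ) {t : 𝓞 K}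
    (ht : t ∈ ∏ v ∈ V, v.asIdeal ^ m) {v : HeightOneSpectrum (𝓞 K)} (hv : v ∈ V) :
    v.valuation K (t : K) ≤ WithZero.exp (-(m : ℤ)) := by
  have h1 : t ∈ v.asIdeal ^ m := by
    have h2 : v.asIdeal ^ m ∣ ∏ v ∈ V, v.asIdeal ^ m := Finset.dvd_prod_of_mem _ hv
    exact Ideal.dvd_iff_le.1 h2 ht
  have h3 := (HeightOneSpectrum.intValuation_le_pow_iff_mem v t m).2 h1
  have h4 : v.valuation K (t : K) = v.intValuation t := HeightOneSpectrum.valuation_of_algebraMap v t
  rw [h4]
  exact h3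

variable {L : Type} [Field L] [NumberField L] [Algebra K L]

/-- the prime below a prime -/
noncomputable def below (K : Type) [Field K] [NumberField K] {L : Type} [Field L] [NumberField L] [Algebra K L]
    (w : HeightOneSpectrum (𝓞 L)) : HeightOneSpectrum (𝓞 K) :=
  ⟨w.asIdeal.comap (algebraMap (𝓞 K) (𝓞 L)), Ideal.IsPrime.comap _, by
    intro h
    obtain ⟨x, hx, hx0⟩ := Submodule.exists_mem_ne_zero_of_ne_bot w.ne_bot
    exact Ideal.comap_ne_bot_of_integral_mem (R := 𝓞 K) (I := w.asIdeal) hx0 hx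
      (Algebra.IsIntegral.isIntegral x) h⟩

theorem mem_below {w : HeightOneSpectrum (𝓞 L)} {s : 𝓞 K} :
    s ∈ (below K w).asIdeal ↔ algebraMap (𝓞 K) (𝓞 L) s ∈ w.asIdeal := Iff.rfl

theorem coe_alg (s : 𝓞 K) : ((algebraMap (𝓞 K) (𝓞 L) s : 𝓞 L) : L) = algebraMap K L (s : K) := by
  change algebraMap (𝓞 L) L (algebraMap (𝓞 K) (𝓞 L) s) = algebraMap K L (algebraMap (𝓞 K) K s)
  rw [← IsScalarTower.algebraMap_apply (𝓞 K) (𝓞 L) L, IsScalarTower.algebraMap_apply (𝓞 K) K L]

theorem val_le_of_below (w : HeightOneSpectrum (𝓞 L)) (y : K) (h : (below K w).valuation K y ≤ 1) :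
    w.valuation L (algebraMap K L y) ≤ 1 := by
  obtain ⟨s, hs, t, ht⟩ := exists_den _ y h
  have hs' : algebraMap (𝓞 K) (𝓞 L) s ∉ w.asIdeal := fun h1 => hs (mem_below.2 h1)
  have h1 := val_one_of_notMem hs'
  rw [coe_alg] at h1
  have h2 : algebraMap K L (t : K) = algebraMap K L (s : K) * algebraMap K L y := by
    rw [ht, map_mul]
  have h3 : w.valuation L (algebraMap K L (t : K)) ≤ 1 := by
    rw [← coe_alg]
    exact HeightOneSpectrum.valuation_le_one w _
  rw [h2, map_mul, h1, one_mul] at h3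
  exact h3

theorem below_lt (w : HeightOneSpectrum (𝓞 L)) (y : K) (h : w.valuation L (algebraMap K L y) < 1) :
    (below K w).valuation K y < 1 := by
  by_contra hcon
  rw [not_lt] at hcon
  have hy0 : y ≠ 0 := by
    rintro rfl
    rw [map_zero] at hcon
    exact absurd hcon (by simp)
  have h1 : (below K w).valuation K y⁻¹ ≤ 1 := by
    rw [map_inv₀]
    exact inv_le_one_of_one_le₀ hcon
  have h2 := val_le_of_below w _ h1
  rw [map_inv₀, map_inv₀] at h2
  have hpos : 0 < w.valuation L (algebraMap K L y) :=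
    (Valuation.pos_iff _).2 ((map_ne_zero _).2 hy0)
  have h3 := (inv_le_one₀ hpos).1 h2
  exact absurd h (not_lt.2 h3)

/-- the norms of the primes above -/
theorem prod_dvd (W : Finset (HeightOneSpectrum (𝓞 L))) (V : Finset (HeightOneSpectrum (𝓞 K)))
    (h : ∀ w ∈ W, below K w ∈ V) :
    ∏ w ∈ W, Ideal.absNorm w.asIdeal ∣ (∏ v ∈ V, Ideal.absNorm v.asIdeal) ^ Module.finrank K L := by
  have h1 : ∏ w ∈ W, w.asIdeal ∣ (∏ v ∈ V, v.asIdeal).map (algebraMap (𝓞 K) (𝓞 L)) := by
    apply Finset.prod_dvd_of_coprime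
    · intro w hw w' hw' hne
      exact Ideal.isCoprime_of_isMaximal (ne := fun h => hne (HeightOneSpectrum.ext h))
    · intro w hw
      rw [Ideal.dvd_iff_le, Ideal.map_le_iff_le_comap]
      have h2 : (below K w).asIdeal ∣ ∏ v ∈ V, v.asIdeal := Finset.dvd_prod_of_mem _ (h w hw)
      exact Ideal.dvd_iff_le.1 h2
  have h2 := Ideal.absNorm_dvd_absNorm_of_le (Ideal.dvd_iff_le.1 h1)
  rw [Ideal.absNorm_algebraMap, map_prod, map_prod, ← IsFractionRing.finrank_eq (𝓞 K) K (𝓞 L) L] at h2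
  exact h2

end Pool.Agent.U221.CD
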