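import Pool.Agent.U221.CD.Kum

/-!
# Root discriminants of `K (x ^ (1 / p), (1 - x) ^ (1 / p))`
-/

set_option autoImplicit false
set_option linter.unusedSectionVars false

namespace Pool.Agent.U221.CD

open NumberField IsDedekindDomain Polynomial Finset

/-- the logarithm of the root discriminant -/
noncomputable def rd (K : Type) [Field K] [NumberField K] : ℝ :=
  Real.log |(discr K : ℝ)| / Module.finrank ℚ K

/-- the norms of a finite set of primes -/
noncomputable def S (K : Type) [Field K] [NumberField K] (V : Finset (HeightOneSpectrum (𝓞 K))) : ℝ :=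
  (∑ v ∈ V, Real.log (Ideal.absNorm v.asIdeal : ℝ)) / Module.finrank ℚ K

section

variable {K : Type} [Field K] [NumberField K]

theorem log_norm_nonneg (v : HeightOneSpectrum (𝓞 K)) : 0 ≤ Real.log (Ideal.absNorm v.asIdeal : ℝ) :=
  Real.log_natCast_nonneg _

theorem norm_ne (v : HeightOneSpectrum (𝓞 K)) : (Ideal.absNorm v.asIdeal : ℝ) ≠ 0 := by
  have h1 : Ideal.absNorm v.asIdeal ≠ 0 := by
    rw [Ne, Ideal.absNorm_eq_zero_iff]
    exact v.ne_bot
  exact_mod_cast h1

theorem deg_pos : (0 : ℝ) < Module.finrank ℚ K := by exact_mod_cast (Module.finrank_pos : 0 < Module.finrank ℚ K)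

theorem S_nonneg (V : Finset (HeightOneSpectrum (𝓞 K))) : 0 ≤ S K V :=
  div_nonneg (sum_nonneg fun v _ => log_norm_nonneg v) deg_pos.le

theorem S_mono {V W : Finset (HeightOneSpectrum (𝓞 K))} (h : V ⊆ W) : S K V ≤ S K W :=
  div_le_div_of_nonneg_right (sum_le_sum_of_subset_of_nonneg h fun v _ _ => log_norm_nonneg v) deg_pos.le

theorem rd_nonneg : 0 ≤ rd K := by
  refine div_nonneg (Real.log_nonneg ?_) deg_pos.le
  have h1 : (1 : ℤ) ≤ |discr K| := Int.one_le_abs (discr_ne_zero K)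
  exact_mod_cast h1

theorem S_union {V W : Finset (HeightOneSpectrum (𝓞 K))} (h : Disjoint V W) :
    S K (V.disjUnion W h) = S K V + S K W := by
  unfold S
  rw [sum_disjUnion, add_div]

end

section

variable {K L : Type} [Field K] [NumberField K] [Field L] [NumberField L] [Algebra K L]

theorem log_disc : Real.log |(discr L : ℝ)| =
    Real.log (Ideal.absNorm (differentIdeal (𝓞 K) (𝓞 L))) +
      (Module.finrank K L : ℝ) * Real.log |(discr K : ℝ)| := by
  have h1 := NumberField.natAbs_discr_eq_absNorm_differentIdeal_mul_natAbs_discr_pow K (𝓞 K) L (𝓞 L)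
  have hdiff0 : Ideal.absNorm (differentIdeal (𝓞 K) (𝓞 L)) ≠ 0 := by
    intro h
    rw [h, zero_mul] at h1
    exact NumberField.discr_ne_zero L (Int.natAbs_eq_zero.1 h1)
  have h2 : |(discr L : ℝ)| = (Ideal.absNorm (differentIdeal (𝓞 K) (𝓞 L)) : ℝ) *
      |(discr K : ℝ)| ^ Module.finrank K L := by
    have h3 := congrArg (fun n : ℕ => (n : ℝ)) h1
    simp only [Nat.cast_mul, Nat.cast_pow, Nat.cast_natAbs, Int.cast_abs] at h3
    exact h3
  rw [h2, Real.log_mul, Real.log_pow]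
  · exact_mod_cast hdiff0
  · refine pow_ne_zero _ ?_
    rw [abs_ne_zero]
    exact_mod_cast NumberField.discr_ne_zero K

theorem diff_ne : Ideal.absNorm (differentIdeal (𝓞 K) (𝓞 L)) ≠ 0 := by
  have h1 := NumberField.natAbs_discr_eq_absNorm_differentIdeal_mul_natAbs_discr_pow K (𝓞 K) L (𝓞 L)
  intro h
  rw [h, zero_mul] at h1
  exact NumberField.discr_ne_zero L (Int.natAbs_eq_zero.1 h1)

theorem finrank_eq : (Module.finrank ℚ L : ℝ) = (Module.finrank ℚ K : ℝ) * Module.finrank K L := by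
  exact_mod_cast (Module.finrank_mul_finrank ℚ K L).symm

/-- the primes above -/
theorem S_below (W : Finset (HeightOneSpectrum (𝓞 L))) (V : Finset (HeightOneSpectrum (𝓞 K)))
    (h : ∀ w ∈ W, below K w ∈ V) : S L W ≤ S K V := by
  have h1 := prod_dvd W V h
  have hV0 : (∏ v ∈ V, Ideal.absNorm v.asIdeal) ^ Module.finrank K L ≠ 0 := by
    refine pow_ne_zero _ (prod_ne_zero_iff.2 fun v _ => ?_)
    exact_mod_cast norm_ne v
  have h2 : ∏ w ∈ W, Ideal.absNorm w.asIdeal ≤ (∏ v ∈ V, Ideal.absNorm v.asIdeal) ^ Module.finrank K L :=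
    Nat.le_of_dvd (Nat.pos_of_ne_zero hV0) h1
  have h3 : (∏ w ∈ W, (Ideal.absNorm w.asIdeal : ℝ)) ≤
      (∏ v ∈ V, (Ideal.absNorm v.asIdeal : ℝ)) ^ Module.finrank K L := by exact_mod_cast h2
  have hpos : 0 < ∏ w ∈ W, (Ideal.absNorm w.asIdeal : ℝ) :=
    prod_pos fun w _ => lt_of_le_of_ne (Nat.cast_nonneg _) (norm_ne w).symm
  have h4 := Real.log_le_log hpos h3
  rw [Real.log_prod (fun w _ => norm_ne w), Real.log_pow, Real.log_prod (fun v _ => norm_ne v)] at h4
  have hL : (0 : ℝ) < Module.finrank K L := by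
    have h5 := deg_pos (K := L)
    rw [finrank_eq (K := K) (L := L)] at h5
    exact (pos_iff_pos_of_mul_pos h5).1 deg_pos
  unfold S
  rw [finrank_eq (K := K) (L := L), div_le_div_iff₀ (mul_pos deg_pos hL) deg_pos]
  calc (∑ w ∈ W, Real.log (Ideal.absNorm w.asIdeal : ℝ)) * Module.finrank ℚ K
      ≤ (Module.finrank K L * ∑ v ∈ V, Real.log (Ideal.absNorm v.asIdeal : ℝ)) * Module.finrank ℚ K :=
        mul_le_mul_of_nonneg_right h4 deg_pos.le
    _ = _ := by ring

/-- the root discriminant of `K (a ^ (1 / p))` -/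
theorem rd_le {p : ℕ} (hp : p.Prime) (h3 : Module.finrank K L = p) {a : K} (ha : a ≠ 0)
    (hirr : ∀ b : K, b ^ p ≠ a) {α : L} (hα : α ^ p = algebraMap K L a) (V : Finset (HeightOneSpectrum (𝓞 K)))
    (hV : ∀ v, ¬ Dv p a v → v ∈ V) : rd L ≤ rd K + S K V + Real.log p := by
  have h1 := diff_dvd hp h3 ha hirr hα V hV
  set N := Ideal.absNorm (differentIdeal (𝓞 K) (𝓞 L)) with hN
  rw [← mul_pow] at h1
  have h2 := (Nat.pow_dvd_pow_iff hp.pos.ne').1 h1
  have hV0 : (∏ v ∈ V, Ideal.absNorm v.asIdeal) ^ (p - 1) ≠ 0 := by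
    refine pow_ne_zero _ (prod_ne_zero_iff.2 fun v _ => ?_)
    exact_mod_cast norm_ne v
  have hne : (∏ v ∈ V, Ideal.absNorm v.asIdeal) ^ (p - 1) * p ^ Module.finrank ℚ L ≠ 0 :=
    mul_ne_zero hV0 (pow_ne_zero _ hp.pos.ne')
  have h4 : N ≤ (∏ v ∈ V, Ideal.absNorm v.asIdeal) ^ (p - 1) * p ^ Module.finrank ℚ L :=
    Nat.le_of_dvd (Nat.pos_of_ne_zero hne) h2
  have h5 : (N : ℝ) ≤ (∏ v ∈ V, (Ideal.absNorm v.asIdeal : ℝ)) ^ (p - 1) * (p : ℝ) ^ Module.finrank ℚ L := by
    exact_mod_cast h4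
  have hN0 : (0 : ℝ) < N := by
    exact_mod_cast Nat.pos_of_ne_zero (diff_ne (K := K) (L := L))
  have hp0 : (0 : ℝ) < p := by exact_mod_cast hp.pos
  have h6 := Real.log_le_log hN0 h5
  have hprod : (∏ v ∈ V, (Ideal.absNorm v.asIdeal : ℝ)) ≠ 0 := prod_ne_zero_iff.2 fun v _ => norm_ne v
  rw [Real.log_mul (pow_ne_zero _ hprod) (pow_ne_zero _ hp0.ne'), Real.log_pow, Real.log_pow,
    Real.log_prod (fun v _ => norm_ne v)] at h6
  have hn := deg_pos (K := K)
  have hLn : (Module.finrank ℚ L : ℝ) = Module.finrank ℚ K * p := by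
    rw [finrank_eq (K := K) (L := L), h3]
  set s := ∑ v ∈ V, Real.log (Ideal.absNorm v.asIdeal : ℝ) with hs
  have hs0 : 0 ≤ s := sum_nonneg fun v _ => log_norm_nonneg v
  have h7 : ((p - 1 : ℕ) : ℝ) ≤ p := by exact_mod_cast Nat.sub_le p 1
  have e1 : rd L = (Real.log N + (p : ℝ) * Real.log |(discr K : ℝ)|) / (Module.finrank ℚ K * p) := by
    unfold rd
    rw [log_disc (K := K) (L := L), h3, hLn, hN]
  have e2 : rd K + S K V + Real.log p =
      ((p : ℝ) * Real.log |(discr K : ℝ)| + p * s + Module.finrank ℚ K * p * Real.log p) /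
        (Module.finrank ℚ K * p) := by
    unfold rd S
    rw [← hs]
    field_simp
  rw [e1, e2]
  refine div_le_div_of_nonneg_right ?_ (mul_pos hn hp0).le
  rw [hLn] at h6
  have h8 : ((p - 1 : ℕ) : ℝ) * s ≤ p * s := mul_le_mul_of_nonneg_right h7 hs0
  linarith

end

section

variable (K : Type) [Field K] [NumberField K]

/-- adjoining one root -/
theorem step {p : ℕ} (hp : p.Prime) {a : K} (ha : a ≠ 0) (V : Finset (HeightOneSpectrum (𝓞 K)))
    (hV : ∀ v, ¬ Dv p a v → v ∈ V) :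
    ∃ (L : Type) (_ : Field L) (_ : NumberField L) (_ : Algebra K L) (α : L), α ^ p = algebraMap K L a ∧
      rd L ≤ rd K + S K V + Real.log p := by
  have hp0 : 0 ≤ Real.log (p : ℝ) := Real.log_natCast_nonneg _
  by_cases h : ∃ b : K, b ^ p = a
  · obtain ⟨b, hb⟩ := h
    refine ⟨K, inferInstance, inferInstance, Algebra.id K, b, hb, ?_⟩
    have := S_nonneg V
    linarith
  · push Not at h
    have hirr : Irreducible (X ^ p - C a : K[X]) := X_pow_sub_C_irreducible_of_prime hp h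
    haveI : Fact (Irreducible (X ^ p - C a : K[X])) := ⟨hirr⟩
    have hne : (X ^ p - C a : K[X]) ≠ 0 := hirr.ne_zero
    let pb := AdjoinRoot.powerBasis hne
    haveI : Module.Finite K (AdjoinRoot (X ^ p - C a : K[X])) := pb.finite
    haveI : NumberField (AdjoinRoot (X ^ p - C a : K[X])) := NumberField.of_module_finite K _
    have hrank : Module.finrank K (AdjoinRoot (X ^ p - C a : K[X])) = p := by
      rw [pb.finrank, AdjoinRoot.powerBasis_dim hne, natDegree_X_pow_sub_C]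
    have hroot : (AdjoinRoot.root (X ^ p - C a : K[X])) ^ p = algebraMap K _ a := by
      have h1 := AdjoinRoot.eval₂_root (X ^ p - C a : K[X])
      rw [eval₂_sub, eval₂_pow, eval₂_X, eval₂_C, sub_eq_zero] at h1
      exact h1
    exact ⟨AdjoinRoot (X ^ p - C a : K[X]), inferInstance, inferInstance, inferInstance, _, hroot,
      rd_le hp hrank ha h hroot V hV⟩

end

end Pool.Agent.U221.CD
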